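import Mathlib
import Pool.Agent.H45.MetricProj

set_option autoImplicit false

open Filter Topology

namespace Pool.Agent.Results.MP_97ba4e_an.WeakNotNorm

/-- `G` is a Chebyshev set in the normed space `E`: it is nonempty and every point `x` of `E` has
exactly one nearest point in `G`. -/
def IsChebyshevSet {E : Type} [NormedAddCommGroup E] (G : Set E) : Prop :=
  G.Nonempty ∧ ∀ x : E, ∃! g : E, g ∈ G ∧ ‖x - g‖ = Metric.infDist x G

/-- `π` is the metric projection onto `G`: it sends every `x` to a nearest point of `G`. -/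
def IsMetricProjection {E : Type} [NormedAddCommGroup E] (G : Set E) (π : E → E) : Prop :=
  ∀ x : E, π x ∈ G ∧ ‖x - π x‖ = Metric.infDist x G

/-- `π` is weakly continuous: it is continuous from `E` with the weak topology `σ(E, E*)` to `E`
with the weak topology. -/
def WeaklyContinuous (𝕜 : Type) [RCLike 𝕜] {E : Type} [NormedAddCommGroup E] [NormedSpace 𝕜 E]
    (π : E → E) : Prop :=
  Continuous fun x : WeakSpace 𝕜 E => toWeakSpace 𝕜 E (π ((toWeakSpace 𝕜 E).symm x))

/-- **Weak continuity of a metric projection does not imply norm continuity.** Over `𝕜 = ℝ` and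
over `𝕜 = ℂ` there is a Banach space `E`, linearly homeomorphic to a Hilbert space, and a closed
linear subspace `G` of codimension two which is a Chebyshev set, such that the metric projection
onto `G` is weakly continuous but not norm continuous. -/
theorem result (𝕜 : Type) [RCLike 𝕜] :
    ∃ (E : Type) (_ : NormedAddCommGroup E) (_ : NormedSpace 𝕜 E) (G : Submodule 𝕜 E) (π : E → E),
      (∃ (H : Type) (_ : NormedAddCommGroup H) (_ : InnerProductSpace 𝕜 H),
        CompleteSpace H ∧ Nonempty (E ≃L[𝕜] H)) ∧
      CompleteSpace E ∧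
      IsClosed (G : Set E) ∧
      Module.finrank 𝕜 (E ⧸ G) = 2 ∧
      IsChebyshevSet (G : Set E) ∧
      IsMetricProjection (G : Set E) π ∧
      WeaklyContinuous 𝕜 π ∧
      ¬ Continuous π :=
  ⟨H45.MetricProj.EE 𝕜, inferInstance, inferInstance, H45.MetricProj.G 𝕜, H45.MetricProj.proj,
    ⟨WithLp 2 (H45.MetricProj.V 𝕜 × H45.MetricProj.F 𝕜), inferInstance, inferInstance,
      inferInstance, ⟨H45.MetricProj.equivHilbert⟩⟩,
    inferInstance, H45.MetricProj.isClosed_G, H45.MetricProj.finrank_quotient,
    ⟨⟨0, (H45.MetricProj.G 𝕜).zero_mem⟩, H45.MetricProj.existsUnique_nearest⟩,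
    H45.MetricProj.isMetricProjection_proj,
    H45.MetricProj.weaklyContinuous_proj, H45.MetricProj.not_continuous_proj⟩

end Pool.Agent.Results.MP_97ba4e_an.WeakNotNorm
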